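import Mathlib
import Pool.Graph.R_seed8.Y924.DV.Limit

/-!
Sets of integers in `[1,n]` without dilates of the sets of a family: fibre decomposition.
-/

set_option autoImplicit false

namespace Pool.Agent.KS6_20.DR

open Finset Filter Topology
open Pool.Agent.Y924.DV (rho rho_nonneg rho_le_one Rough rgh mem_rgh smt mem_smt exists_decomp
  decomp_unique sum_smt_div tendsto_sum_W abel summable_smooth sum_swap rgh_card_le)

/-- `A` contains no dilate of a set of the family -/
def Av (F : Set (Set ℕ)) (A : Finset ℕ) : Prop := ∀ D ∈ F, ∀ m : ℕ, ¬ ∀ d ∈ D, m * d ∈ A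

theorem Av.subset {F : Set (Set ℕ)} {A B : Finset ℕ} (h : Av F B) (hAB : A ⊆ B) : Av F A :=
  fun D hD m hm => h D hD m fun d hd => hAB (hm d hd)

/-- the sets of the family are nonempty sets of positive integers; every prime divisor of an
element is at most `L` or at most the quotient of two elements -/
def Loc (L : ℕ) (F : Set (Set ℕ)) : Prop :=
  ∀ D ∈ F, D.Nonempty ∧ ∀ d ∈ D, 0 < d ∧ ∀ p : ℕ, p.Prime → p ∣ d →
    p ≤ L ∨ ∃ a ∈ D, ∃ b ∈ D, p * a ≤ b

theorem av_empty {F : Set (Set ℕ)} (hF : ∀ D ∈ F, D.Nonempty) : Av F ∅ := by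
  intro D hD m hm
  obtain ⟨d, hd⟩ := hF D hD
  exact absurd (hm d hd) (Finset.notMem_empty _)

/-- largest cardinality of a subset of `[1,n]` with all elements in `p` which avoids `F` -/
noncomputable def mx (F : Set (Set ℕ)) (p : ℕ → Prop) (n : ℕ) : ℕ :=
  sSup {k | ∃ A : Finset ℕ, A ⊆ Finset.Icc 1 n ∧ (∀ a ∈ A, p a) ∧ Av F A ∧ A.card = k}

variable {F : Set (Set ℕ)}

theorem mx_bdd (p : ℕ → Prop) (n : ℕ) :
    BddAbove {k | ∃ A : Finset ℕ, A ⊆ Finset.Icc 1 n ∧ (∀ a ∈ A, p a) ∧ Av F A ∧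
      A.card = k} := by
  refine ⟨n, ?_⟩
  rintro k ⟨A, hA, _, _, rfl⟩
  calc A.card ≤ (Finset.Icc 1 n).card := Finset.card_le_card hA
    _ = n := by simp

theorem le_mx {p : ℕ → Prop} {n : ℕ} {A : Finset ℕ} (h1 : A ⊆ Finset.Icc 1 n)
    (h2 : ∀ a ∈ A, p a) (h3 : Av F A) : A.card ≤ mx F p n :=
  le_csSup (mx_bdd p n) ⟨A, h1, h2, h3, rfl⟩

theorem exists_mx (hF : ∀ D ∈ F, D.Nonempty) (p : ℕ → Prop) (n : ℕ) :
    ∃ A : Finset ℕ, A ⊆ Finset.Icc 1 n ∧ (∀ a ∈ A, p a) ∧ Av F A ∧ A.card = mx F p n := by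
  have h : (mx F p n) ∈ {k | ∃ A : Finset ℕ, A ⊆ Finset.Icc 1 n ∧ (∀ a ∈ A, p a) ∧
      Av F A ∧ A.card = k} := by
    apply Nat.sSup_mem _ (mx_bdd p n)
    exact ⟨0, ∅, by simp, by simp, av_empty hF, by simp⟩
  exact h

theorem mx_le_iff (hF : ∀ D ∈ F, D.Nonempty) {p : ℕ → Prop} {n k : ℕ} :
    mx F p n ≤ k ↔ ∀ A : Finset ℕ, A ⊆ Finset.Icc 1 n → (∀ a ∈ A, p a) → Av F A →
      A.card ≤ k := by
  constructor
  · intro h A h1 h2 h3
    exact (le_mx h1 h2 h3).trans h
  · intro h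
    obtain ⟨A, h1, h2, h3, h4⟩ := exists_mx hF p n
    rw [← h4]
    exact h A h1 h2 h3

theorem mx_le (hF : ∀ D ∈ F, D.Nonempty) (p : ℕ → Prop) (n : ℕ) : mx F p n ≤ n := by
  rw [mx_le_iff hF]
  intro A hA _ _
  calc A.card ≤ (Finset.Icc 1 n).card := Finset.card_le_card hA
    _ = n := by simp

theorem mx_mono (hF : ∀ D ∈ F, D.Nonempty) (p : ℕ → Prop) : Monotone (mx F p) := by
  intro m n hmn
  rw [mx_le_iff hF]
  intro A h1 h2 h3
  exact le_mx (h1.trans (Finset.Icc_subset_Icc_right hmn)) h2 h3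

/-- the smooth version of the extremal function -/
noncomputable def g (F : Set (Set ℕ)) (N j : ℕ) : ℕ := mx F (fun s => s ∈ Nat.smoothNumbers N) j

/-- the extremal function -/
noncomputable def f (F : Set (Set ℕ)) (n : ℕ) : ℕ := mx F (fun _ => True) n

theorem f_le_self (hF : ∀ D ∈ F, D.Nonempty) (n : ℕ) : f F n ≤ n := mx_le hF _ n

theorem g_zero (hF : ∀ D ∈ F, D.Nonempty) (N : ℕ) : g F N 0 = 0 := Nat.le_zero.mp (mx_le hF _ 0)

theorem g_mono (hF : ∀ D ∈ F, D.Nonempty) (N : ℕ) : Monotone (g F N) := mx_mono hF _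

/-- upper bound by the fibres -/
theorem f_le (hF : ∀ D ∈ F, D.Nonempty) (N n : ℕ) : f F n ≤ ∑ v ∈ rgh N n, g F N (n / v) := by
  classical
  unfold f
  rw [mx_le_iff hF]
  intro A h1 _ h3
  let B : ℕ → Finset ℕ := fun v => (smt N (n / v)).filter (fun s => v * s ∈ A)
  have hcov : A ⊆ (rgh N n).biUnion (fun v => (B v).image (v * ·)) := by
    intro x hx
    have hx1 := Finset.mem_Icc.mp (h1 hx)
    obtain ⟨v, s, hxe, hv, hs, hv0, hs0⟩ := exists_decomp N (by omega : x ≠ 0)
    rw [Finset.mem_biUnion]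
    refine ⟨v, ?_, ?_⟩
    · rw [mem_rgh]
      refine ⟨hv0, ?_, hv⟩
      calc v ≤ v * s := Nat.le_mul_of_pos_right _ hs0
        _ ≤ n := by omega
    · rw [Finset.mem_image]
      refine ⟨s, ?_, hxe.symm⟩
      rw [Finset.mem_filter, mem_smt]
      refine ⟨⟨hs0, ?_, hs⟩, by rw [← hxe]; exact hx⟩
      rw [Nat.le_div_iff_mul_le hv0]
      rw [mul_comm]
      omega
  calc A.card ≤ ((rgh N n).biUnion (fun v => (B v).image (v * ·))).card :=
        Finset.card_le_card hcov
    _ ≤ ∑ v ∈ rgh N n, ((B v).image (v * ·)).card := Finset.card_biUnion_le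
    _ ≤ ∑ v ∈ rgh N n, (B v).card := Finset.sum_le_sum (fun v _ => Finset.card_image_le)
    _ ≤ ∑ v ∈ rgh N n, g F N (n / v) := by
        apply Finset.sum_le_sum
        intro v hv
        rw [mem_rgh] at hv
        apply le_mx
        · intro s hs
          rw [Finset.mem_filter, mem_smt] at hs
          rw [Finset.mem_Icc]
          exact ⟨hs.1.1, hs.1.2.1⟩
        · intro s hs
          rw [Finset.mem_filter, mem_smt] at hs
          exact hs.1.2.2
        · intro D hD m hm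
          refine h3 D hD (v * m) fun d hd => ?_
          have := hm d hd
          rw [Finset.mem_filter] at this
          rw [mul_assoc]
          exact this.2

/-- lower bound by the fibres -/
theorem le_f {L : ℕ} (hF : Loc L F) {N : ℕ} (hN : L < N) (n : ℕ) (S : ℕ → Finset ℕ)
    (hS : ∀ j, ∀ s ∈ S j, s ∈ Nat.smoothNumbers N ∧ s ≤ j ∧ j < s * N)
    (hadm : ∀ j, Av F (S j)) :
    ∑ v ∈ rgh N n, (S (n / v)).card ≤ f F n := by
  classical
  have key : ((rgh N n).biUnion (fun v => (S (n / v)).image (v * ·))).card =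
      ∑ v ∈ rgh N n, (S (n / v)).card := by
    rw [Finset.card_biUnion]
    · apply Finset.sum_congr rfl
      intro v hv
      rw [mem_rgh] at hv
      rw [Finset.card_image_of_injective]
      intro a b hab
      exact Nat.eq_of_mul_eq_mul_left (by omega : 0 < v) hab
    · intro v hv w hw hvw
      rw [Function.onFun, Finset.disjoint_left]
      intro x hx hx'
      simp only [Finset.mem_image] at hx hx'
      obtain ⟨s, hs, rfl⟩ := hx
      obtain ⟨t, ht, hte⟩ := hx'
      rw [Finset.mem_coe, mem_rgh] at hv hw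
      exact hvw (decomp_unique hw.2.2 (hS _ t ht).1 hv.2.2 (hS _ s hs).1 hte).1.symm
  rw [← key]
  have hmem : ∀ x, x ∈ (rgh N n).biUnion (fun v => (S (n / v)).image (v * ·)) →
      ∃ v s, v ∈ rgh N n ∧ s ∈ S (n / v) ∧ v * s = x ∧ 1 ≤ x ∧ x ≤ n ∧ n < N * x := by
    intro x hx
    rw [Finset.mem_biUnion] at hx
    obtain ⟨v, hv, hx⟩ := hx
    rw [Finset.mem_image] at hx
    obtain ⟨s, hs, rfl⟩ := hx
    have hv' := mem_rgh.mp hv
    have h1 := hS _ s hs
    have hs0 : 0 < s := Nat.pos_of_ne_zero (Nat.ne_zero_of_mem_smoothNumbers h1.1)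
    refine ⟨v, s, hv, hs, rfl, Nat.mul_pos (by omega) hs0, ?_, ?_⟩
    · calc v * s ≤ v * (n / v) := Nat.mul_le_mul_left _ h1.2.1
        _ ≤ n := Nat.mul_div_le _ _
    · have h3 : n < s * N * v := (Nat.div_lt_iff_lt_mul (by omega : 0 < v)).mp h1.2.2
      calc n < s * N * v := h3
        _ = N * (v * s) := by ring
  apply le_mx
  · intro x hx
    obtain ⟨v, s, _, _, _, h1, h2, _⟩ := hmem x hx
    exact Finset.mem_Icc.mpr ⟨h1, h2⟩
  · intro _ _; trivial
  · intro D hD m hm
    obtain ⟨hDne, hDp⟩ := hF D hD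
    have hsm : ∀ d ∈ D, d ∈ Nat.smoothNumbers N := by
      intro d hd
      rw [Nat.mem_smoothNumbers']
      intro p hp hpd
      rcases (hDp d hd).2 p hp hpd with h | ⟨a, ha, b, hb, hab⟩
      · omega
      · obtain ⟨_, _, _, _, _, a1, a2, a3⟩ := hmem _ (hm a ha)
        obtain ⟨_, _, _, _, _, b1, b2, b3⟩ := hmem _ (hm b hb)
        by_contra hpN
        push Not at hpN
        have h1 : N * (m * a) ≤ m * b := by
          calc N * (m * a) ≤ p * (m * a) := Nat.mul_le_mul_right _ hpN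
            _ = m * (p * a) := by ring
            _ ≤ m * b := Nat.mul_le_mul_left _ hab
        omega
    obtain ⟨d0, hd0⟩ := hDne
    obtain ⟨_, _, _, _, _, c1, _, _⟩ := hmem _ (hm d0 hd0)
    have hm0 : m ≠ 0 := by
      rintro rfl
      simp at c1
    obtain ⟨v, t, hmt, hv, ht, hv0, ht0⟩ := exists_decomp N hm0
    have hall : ∀ d ∈ D, v ∈ rgh N n ∧ t * d ∈ S (n / v) := by
      intro d hd
      obtain ⟨w, s, hw, hs, hws, _, _, _⟩ := hmem _ (hm d hd)
      have h1 : w * s = v * (t * d) := by rw [hws, hmt]; ring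
      have h2 := decomp_unique (mem_rgh.mp hw).2.2 (hS _ s hs).1 hv
        (Nat.mul_mem_smoothNumbers ht (hsm d hd)) h1
      rw [← h2.1, ← h2.2]
      exact ⟨hw, hs⟩
    exact hadm (n / v) D hD t fun d hd => (hall d hd).2

/-- lower bound by the fibres with the loss `n / N` -/
theorem sum_g_le {L : ℕ} (hF : Loc L F) {N : ℕ} (hN : L < N) (n : ℕ) :
    ∑ v ∈ rgh N n, g F N (n / v) ≤ f F n + n / N := by
  classical
  have hne : ∀ D ∈ F, D.Nonempty := fun D hD => (hF D hD).1
  have hN0 : 0 < N := by omega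
  choose B hB1 hB2 hB3 hB4 using fun j => exists_mx hne (fun s => s ∈ Nat.smoothNumbers N) j
  have h := le_f hF hN n (fun j => (B j).filter (fun s => j < s * N)) (by
    intro j s hs
    rw [Finset.mem_filter] at hs
    exact ⟨hB2 j s hs.1, (Finset.mem_Icc.mp (hB1 j hs.1)).2, hs.2⟩) (by
    intro j
    exact (hB3 j).subset (Finset.filter_subset _ _))
  have h2 : ∀ j, g F N j ≤ ((B j).filter (fun s => j < s * N)).card + (smt N (j / N)).card := by
    intro j
    have e : g F N j = (B j).card := (hB4 j).symm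
    rw [e, ← Finset.card_filter_add_card_filter_not (s := B j) (fun s => j < s * N)]
    apply Nat.add_le_add_left
    apply Finset.card_le_card
    intro s hs
    rw [Finset.mem_filter] at hs
    rw [mem_smt]
    have h3 := Finset.mem_Icc.mp (hB1 j hs.1)
    refine ⟨h3.1, ?_, hB2 j s hs.1⟩
    rw [Nat.le_div_iff_mul_le hN0]
    omega
  calc ∑ v ∈ rgh N n, g F N (n / v)
      ≤ ∑ v ∈ rgh N n, (((B (n / v)).filter (fun s => n / v < s * N)).card +
          (smt N (n / v / N)).card) := Finset.sum_le_sum (fun v _ => h2 _)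
    _ = ∑ v ∈ rgh N n, ((B (n / v)).filter (fun s => n / v < s * N)).card + n / N := by
        rw [Finset.sum_add_distrib, sum_smt_div]
    _ ≤ f F n + n / N := Nat.add_le_add_right h _

theorem g_succ_le (hF : ∀ D ∈ F, D.Nonempty) (N j : ℕ) : g F N (j + 1) ≤ g F N j + 1 := by
  classical
  unfold g
  rw [mx_le_iff hF]
  intro A h1 h2 h3
  have h4 : (A.erase (j + 1)).card ≤ mx F (fun s => s ∈ Nat.smoothNumbers N) j := by
    apply le_mx
    · intro a ha
      rw [Finset.mem_erase] at ha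
      have := Finset.mem_Icc.mp (h1 ha.2)
      rw [Finset.mem_Icc]
      omega
    · intro a ha
      exact h2 a (Finset.mem_of_mem_erase ha)
    · exact h3.subset (Finset.erase_subset _ _)
  have h5 : A.card ≤ (A.erase (j + 1)).card + 1 := by
    have := Finset.pred_card_le_card_erase (s := A) (a := j + 1)
    omega
  omega

theorem g_succ_of_not (hF : ∀ D ∈ F, D.Nonempty) (N j : ℕ) (h : j + 1 ∉ Nat.smoothNumbers N) :
    g F N (j + 1) = g F N j := by
  apply le_antisymm
  · unfold g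
    rw [mx_le_iff hF]
    intro A h1 h2 h3
    apply le_mx
    · intro a ha
      have := Finset.mem_Icc.mp (h1 ha)
      rw [Finset.mem_Icc]
      have : a ≠ j + 1 := by rintro rfl; exact h (h2 _ ha)
      omega
    · exact h2
    · exact h3
  · exact g_mono hF N (Nat.le_succ j)

/-- the jump of `g` -/
theorem delta_mem (hF : ∀ D ∈ F, D.Nonempty) (N t : ℕ) :
    0 ≤ (g F N (t + 1) : ℝ) - g F N t ∧ (g F N (t + 1) : ℝ) - g F N t ≤ 1 ∧
      (t + 1 ∉ Nat.smoothNumbers N → (g F N (t + 1) : ℝ) - g F N t = 0) := by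
  have h1 : (g F N t : ℝ) ≤ g F N (t + 1) := by exact_mod_cast g_mono hF N (Nat.le_succ t)
  have h2 : (g F N (t + 1) : ℝ) ≤ g F N t + 1 := by exact_mod_cast g_succ_le hF N t
  refine ⟨by linarith, by linarith, fun h => ?_⟩
  rw [g_succ_of_not hF N t h]
  ring

theorem summable_delta (hF : ∀ D ∈ F, D.Nonempty) (N : ℕ) :
    Summable (fun t : ℕ => ((g F N (t + 1) : ℝ) - g F N t) / ((t : ℝ) + 1)) := by
  have h := (summable_nat_add_iff 1).mpr (summable_smooth N)
  refine Summable.of_nonneg_of_le ?_ ?_ h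
  · intro t
    have := (delta_mem hF N t).1
    positivity
  · intro t
    by_cases hs : t + 1 ∈ Nat.smoothNumbers N
    · rw [Set.indicator_of_mem hs]
      push_cast
      have := (delta_mem hF N t).2.1
      gcongr
    · rw [Set.indicator_of_notMem hs, (delta_mem hF N t).2.2 hs]
      simp

/-- the approximating constants -/
noncomputable def cc (F : Set (Set ℕ)) (N : ℕ) : ℝ :=
  rho N * ∑' j : ℕ, (g F N j : ℝ) / ((j : ℝ) * (j + 1))

theorem cc_eq (hF : ∀ D ∈ F, D.Nonempty) (N : ℕ) :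
    Summable (fun j : ℕ => (g F N j : ℝ) / ((j : ℝ) * (j + 1))) ∧
    cc F N = rho N * ∑' t : ℕ, ((g F N (t + 1) : ℝ) - g F N t) / ((t : ℝ) + 1) := by
  have hm : Monotone (fun j => (g F N j : ℝ)) := by
    intro a b h
    have := g_mono hF N h
    simpa using this
  have h := abel (fun j => (g F N j : ℝ)) (by simp [g_zero hF]) hm (summable_delta hF N)
  refine ⟨h.1, ?_⟩
  unfold cc
  rw [h.2]

theorem tendsto_F (hF : ∀ D ∈ F, D.Nonempty) (N : ℕ) :
    Tendsto (fun n : ℕ => (∑ v ∈ rgh N n, (g F N (n / v) : ℝ)) / n) atTop (𝓝 (cc F N)) := by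
  have h1 := tendsto_sum_W N (fun j => (g F N j : ℝ)) (by simp [g_zero hF]) (by
    refine (summable_delta hF N).congr ?_
    intro t
    rw [abs_of_nonneg (delta_mem hF N t).1])
  rw [(cc_eq hF N).2]
  exact h1

theorem u_le (hF : ∀ D ∈ F, D.Nonempty) (N n : ℕ) :
    (f F n : ℝ) / n ≤ (∑ v ∈ rgh N n, (g F N (n / v) : ℝ)) / n := by
  have h := f_le hF N n
  have h' : (f F n : ℝ) ≤ ∑ v ∈ rgh N n, (g F N (n / v) : ℝ) := by exact_mod_cast h
  gcongr

theorem le_u {L : ℕ} (hF : Loc L F) {N : ℕ} (hN : L < N) (n : ℕ) :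
    (∑ v ∈ rgh N n, (g F N (n / v) : ℝ)) / n ≤ (f F n : ℝ) / n + 1 / N := by
  rcases Nat.eq_zero_or_pos n with h | h
  · subst h
    simp
  · have h1 := sum_g_le hF hN n
    have h1' : (∑ v ∈ rgh N n, (g F N (n / v) : ℝ)) ≤ f F n + ((n / N : ℕ) : ℝ) := by
      exact_mod_cast h1
    have h2 : ((n / N : ℕ) : ℝ) ≤ n / N := Nat.cast_div_le
    have hn : (0 : ℝ) < n := by exact_mod_cast h
    rw [div_le_iff₀ hn]
    have : ((f F n : ℝ) / n + 1 / N) * n = f F n + n / N := by
      field_simp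
    rw [this]
    linarith

/-- **Existence of the density**, with the two-sided approximation by `cc N`. -/
theorem limit_exists {L : ℕ} (hF : Loc L F) :
    ∃ c : ℝ, Tendsto (fun n : ℕ => (f F n : ℝ) / n) atTop (𝓝 c) ∧
      (∀ N : ℕ, c ≤ cc F N) ∧ ∀ N : ℕ, L < N → cc F N ≤ c + 1 / N := by
  have hne : ∀ D ∈ F, D.Nonempty := fun D hD => (hF D hD).1
  have hc : CauchySeq (fun n : ℕ => (f F n : ℝ) / n) := by
    rw [Metric.cauchySeq_iff]
    intro ε hε
    obtain ⟨N', hN'⟩ := exists_nat_gt (4 / ε)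
    obtain ⟨N, hNe⟩ : ∃ N, N = N' + L + 1 := ⟨_, rfl⟩
    have hN : 4 / ε < N := by
      refine hN'.trans_le ?_
      rw [hNe]
      push_cast
      have : (0 : ℝ) ≤ L := by positivity
      linarith
    have hLN : L < N := by omega
    have hN0 : (0 : ℝ) < N := lt_trans (by positivity) hN
    have h1N : 1 / (N : ℝ) < ε / 4 := by
      rw [div_lt_iff₀ hN0]
      rw [div_lt_iff₀ hε] at hN
      linarith
    have h := tendsto_F hne N
    rw [Metric.tendsto_atTop] at h
    obtain ⟨n0, hn0⟩ := h (ε / 4) (by positivity)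
    refine ⟨n0, fun m hm n hn => ?_⟩
    have a1 := hn0 m hm
    have a2 := hn0 n hn
    rw [Real.dist_eq, abs_lt] at a1 a2
    have b1 := u_le hne N m
    have b2 := u_le hne N n
    have b3 := le_u hF hLN m
    have b4 := le_u hF hLN n
    rw [Real.dist_eq, abs_lt]
    constructor
    · linarith [a1.1, a2.2]
    · linarith [a1.2, a2.1]
  obtain ⟨c, hc⟩ := cauchySeq_tendsto_of_complete hc
  refine ⟨c, hc, fun N => ?_, fun N hN => ?_⟩
  · exact le_of_tendsto_of_tendsto' hc (tendsto_F hne N) (u_le hne N)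
  · exact le_of_tendsto_of_tendsto' (tendsto_F hne N) (hc.add_const _) (le_u hF hN)

end Pool.Agent.KS6_20.DR
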