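import Mathlib
import Pool.Graph.R_seed8.Y924.DV.Asym

/-!
The number of the integers up to `m` without small prime factors: Brun's pure sieve.
-/

set_option autoImplicit false

namespace Pool.Agent.KS6_20.DR

open Finset
open Pool.Agent.Y924.DV (rho PP PP_pos Rough rough_iff rgh mem_rgh totient_eq rho_nonneg)

theorem alt_choose_succ (s l : ℕ) :
    ∑ j ∈ range (l + 1), (-1 : ℝ) ^ j * ((s + 1).choose j : ℝ) = (-1) ^ l * (s.choose l : ℝ) := by
  induction l with
  | zero => simp
  | succ l ih =>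
    rw [Finset.sum_range_succ, ih, Nat.choose_succ_succ]
    push_cast
    ring

theorem alt_choose (s l : ℕ) :
    |(if s = 0 then (1 : ℝ) else 0) - ∑ j ∈ range (l + 1), (-1) ^ j * (s.choose j : ℝ)| ≤
      (s.choose (l + 1) : ℝ) := by
  rcases s with _ | s
  · rw [Finset.sum_range_succ']
    simp
  · rw [alt_choose_succ, if_neg (Nat.succ_ne_zero s), zero_sub, abs_neg, abs_mul, abs_pow, abs_neg,
      abs_one, one_pow, one_mul, Nat.abs_cast, Nat.choose_succ_succ]
    push_cast
    have : (0 : ℝ) ≤ (s.choose (l + 1) : ℝ) := by positivity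
    linarith

/-- the products of the primes of `D` -/
def pd (D : Finset ℕ) : ℕ := ∏ p ∈ D, p

theorem pd_dvd {D : Finset ℕ} (hD : ∀ p ∈ D, p.Prime) (v : ℕ) :
    pd D ∣ v ↔ ∀ p ∈ D, p ∣ v := by
  constructor
  · intro h p hp
    exact (Finset.dvd_prod_of_mem _ hp).trans h
  · intro h
    exact Finset.prod_primes_dvd v (fun p hp => (hD p hp).prime) h

theorem pd_pos {D : Finset ℕ} (hD : ∀ p ∈ D, p.Prime) : 0 < pd D :=
  Finset.prod_pos fun p hp => (hD p hp).pos

/-- the number of the primes below `N` dividing `v` -/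
def sv (N v : ℕ) : ℕ := ((Nat.primesBelow N).filter (· ∣ v)).card

theorem sv_eq_zero (N v : ℕ) : sv N v = 0 ↔ Rough N v := by
  unfold sv Rough
  rw [Finset.card_eq_zero, Finset.filter_eq_empty_iff]
  constructor
  · intro h p hp hpv
    by_contra hlt
    push Not at hlt
    exact h (Nat.mem_primesBelow.mpr ⟨hlt, hp⟩) hpv
  · intro h p hp hpv
    have := h p (Nat.prime_of_mem_primesBelow hp) hpv
    have := Nat.lt_of_mem_primesBelow hp
    omega

theorem sum_choose (N m j : ℕ) :
    ∑ v ∈ Finset.Icc 1 m, ((sv N v).choose j : ℝ) =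
      ∑ D ∈ (Nat.primesBelow N).powersetCard j, ((m / pd D : ℕ) : ℝ) := by
  classical
  have h1 : ∀ v, ((sv N v).choose j : ℝ) =
      ∑ D ∈ (Nat.primesBelow N).powersetCard j, if pd D ∣ v then (1 : ℝ) else 0 := by
    intro v
    rw [← Finset.sum_filter, Finset.sum_const, nsmul_eq_mul, mul_one]
    unfold sv
    rw [← Finset.card_powersetCard]
    congr 2
    ext D
    simp only [Finset.mem_powersetCard, Finset.mem_filter]
    constructor
    · rintro ⟨a, b⟩
      have hD : ∀ p ∈ D, p.Prime := fun p hp =>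
        Nat.prime_of_mem_primesBelow (Finset.mem_filter.mp (a hp)).1
      refine ⟨⟨fun p hp => (Finset.mem_filter.mp (a hp)).1, b⟩, ?_⟩
      rw [pd_dvd hD]
      exact fun p hp => (Finset.mem_filter.mp (a hp)).2
    · rintro ⟨⟨a, b⟩, c⟩
      have hD : ∀ p ∈ D, p.Prime := fun p hp => Nat.prime_of_mem_primesBelow (a hp)
      rw [pd_dvd hD] at c
      exact ⟨fun p hp => Finset.mem_filter.mpr ⟨a hp, c p hp⟩, b⟩
  rw [Finset.sum_congr rfl fun v _ => h1 v, Finset.sum_comm]
  refine Finset.sum_congr rfl fun D _ => ?_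
  rw [← Finset.sum_filter, Finset.sum_const, nsmul_eq_mul, mul_one]
  congr 1
  have e : Finset.Icc 1 m = Finset.Ioc 0 m := by
    ext x
    simp only [Finset.mem_Icc, Finset.mem_Ioc]
    omega
  rw [e, Nat.Ioc_filter_dvd_card_eq_div]

/-- the Bonferroni inequalities -/
theorem bonf (N m l : ℕ) :
    |((rgh N m).card : ℝ) - ∑ j ∈ range (l + 1), (-1) ^ j *
        ∑ D ∈ (Nat.primesBelow N).powersetCard j, ((m / pd D : ℕ) : ℝ)| ≤
      ∑ D ∈ (Nat.primesBelow N).powersetCard (l + 1), ((m / pd D : ℕ) : ℝ) := by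
  classical
  have h1 : ((rgh N m).card : ℝ) = ∑ v ∈ Finset.Icc 1 m, if sv N v = 0 then (1 : ℝ) else 0 := by
    rw [← Finset.sum_filter, Finset.sum_const, nsmul_eq_mul, mul_one]
    congr 2
    ext v
    rw [mem_rgh, Finset.mem_filter, Finset.mem_Icc, sv_eq_zero, and_assoc]
  have h2 : ∑ j ∈ range (l + 1), (-1 : ℝ) ^ j *
        ∑ D ∈ (Nat.primesBelow N).powersetCard j, ((m / pd D : ℕ) : ℝ) =
      ∑ v ∈ Finset.Icc 1 m, ∑ j ∈ range (l + 1), (-1) ^ j * ((sv N v).choose j : ℝ) := by
    rw [Finset.sum_comm]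
    refine Finset.sum_congr rfl fun j _ => ?_
    rw [← Finset.mul_sum, sum_choose]
  rw [h1, h2, ← Finset.sum_sub_distrib, ← sum_choose]
  refine (Finset.abs_sum_le_sum_abs _ _).trans ?_
  exact Finset.sum_le_sum fun v _ => alt_choose _ _

/-- the elementary symmetric functions of the reciprocals -/
noncomputable def es (N j : ℕ) : ℝ := ∑ D ∈ (Nat.primesBelow N).powersetCard j, 1 / (pd D : ℝ)

theorem prime_of_mem {N j : ℕ} {D : Finset ℕ} (hD : D ∈ (Nat.primesBelow N).powersetCard j) :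
    ∀ p ∈ D, p.Prime := fun _ hp =>
  Nat.prime_of_mem_primesBelow ((Finset.mem_powersetCard.mp hD).1 hp)

/-- the truncated sums of the product `rho` -/
theorem rho_bonf (N l : ℕ) :
    |rho N - ∑ j ∈ range (l + 1), (-1) ^ j * es N j| ≤ es N (l + 1) := by
  classical
  have hP := PP_pos N
  have hP' : (0 : ℝ) < PP N := by exact_mod_cast hP
  have h1 := bonf N (PP N) l
  have h2 : ((rgh N (PP N)).card : ℝ) = rho N * PP N := by
    rw [← totient_eq, ← Nat.filter_coprime_Ico_eq_totient (PP N) 1]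
    congr 2
    ext v
    rw [mem_rgh, Finset.mem_filter, Finset.mem_Ico, rough_iff]
    constructor
    · rintro ⟨a, b, c⟩
      exact ⟨⟨a, by omega⟩, c⟩
    · rintro ⟨⟨a, b⟩, c⟩
      exact ⟨a, by omega, c⟩
  have h3 : ∀ j, ∑ D ∈ (Nat.primesBelow N).powersetCard j, ((PP N / pd D : ℕ) : ℝ) =
      PP N * es N j := by
    intro j
    unfold es
    rw [Finset.mul_sum]
    refine Finset.sum_congr rfl fun D hD => ?_
    have hdvd : pd D ∣ PP N := by
      unfold pd PP
      exact Finset.prod_dvd_prod_of_subset _ _ _ (Finset.mem_powersetCard.mp hD).1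
    have hpos := pd_pos (prime_of_mem hD)
    rw [Nat.cast_div hdvd (by exact_mod_cast hpos.ne')]
    ring
  simp only [h3] at h1
  rw [h2] at h1
  have h4 : rho N * PP N - ∑ j ∈ range (l + 1), (-1 : ℝ) ^ j * (PP N * es N j) =
      PP N * (rho N - ∑ j ∈ range (l + 1), (-1) ^ j * es N j) := by
    rw [mul_sub, Finset.mul_sum]
    congr 1
    · ring
    · refine Finset.sum_congr rfl fun j _ => by ring
  rw [h4, abs_mul, abs_of_pos hP'] at h1
  exact le_of_mul_le_mul_left h1 hP'

/-- Brun's pure sieve -/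
theorem brun (N m l : ℕ) :
    |((rgh N m).card : ℝ) - rho N * m| ≤
      ∑ j ∈ range (l + 1), ((Nat.primesBelow N).card.choose j : ℝ) + 2 * m * es N (l + 1) := by
  classical
  have h1 := bonf N m l
  have h2 := rho_bonf N l
  have hm : (0 : ℝ) ≤ m := by positivity
  have h3 : ∑ D ∈ (Nat.primesBelow N).powersetCard (l + 1), ((m / pd D : ℕ) : ℝ) ≤
      m * es N (l + 1) := by
    unfold es
    rw [Finset.mul_sum]
    refine Finset.sum_le_sum fun D _ => ?_
    refine Nat.cast_div_le.trans (le_of_eq ?_)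
    ring
  have h4 : |∑ j ∈ range (l + 1), (-1 : ℝ) ^ j *
        ∑ D ∈ (Nat.primesBelow N).powersetCard j, ((m / pd D : ℕ) : ℝ) -
        m * ∑ j ∈ range (l + 1), (-1) ^ j * es N j| ≤
      ∑ j ∈ range (l + 1), ((Nat.primesBelow N).card.choose j : ℝ) := by
    rw [Finset.mul_sum, ← Finset.sum_sub_distrib]
    refine (Finset.abs_sum_le_sum_abs _ _).trans (Finset.sum_le_sum fun j _ => ?_)
    have e : (-1 : ℝ) ^ j * ∑ D ∈ (Nat.primesBelow N).powersetCard j, ((m / pd D : ℕ) : ℝ) -
        m * ((-1) ^ j * es N j) = (-1) ^ j *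
        ∑ D ∈ (Nat.primesBelow N).powersetCard j, (((m / pd D : ℕ) : ℝ) - m / (pd D : ℝ)) := by
      unfold es
      rw [Finset.sum_sub_distrib, mul_sub]
      congr 1
      rw [← mul_assoc, mul_comm (m : ℝ), mul_assoc, Finset.mul_sum]
      congr 1
      refine Finset.sum_congr rfl fun D _ => by ring
    rw [e, abs_mul, abs_pow, abs_neg, abs_one, one_pow, one_mul, ← Finset.card_powersetCard]
    refine (Finset.abs_sum_le_sum_abs _ _).trans ?_
    have ec : (((Nat.primesBelow N).powersetCard j).card : ℝ) =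
        ∑ _D ∈ (Nat.primesBelow N).powersetCard j, (1 : ℝ) := by simp
    rw [ec]
    refine Finset.sum_le_sum fun D hD => ?_
    have hpos : (0 : ℝ) < pd D := by exact_mod_cast pd_pos (prime_of_mem hD)
    have a1 : ((m / pd D : ℕ) : ℝ) ≤ m / (pd D : ℝ) := Nat.cast_div_le
    have a2 : (m : ℝ) / pd D - 1 ≤ ((m / pd D : ℕ) : ℝ) := by
      have := Nat.lt_mul_div_succ m (pd_pos (prime_of_mem hD))
      have h4 : (m : ℝ) < pd D * (((m / pd D : ℕ) : ℝ) + 1) := by exact_mod_cast this
      have h5 : (m : ℝ) / pd D < ((m / pd D : ℕ) : ℝ) + 1 := by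
        rw [div_lt_iff₀ hpos]; linarith
      linarith
    rw [abs_le]
    constructor <;> linarith
  have h5 : |m * ∑ j ∈ range (l + 1), (-1) ^ j * es N j - rho N * m| ≤ m * es N (l + 1) := by
    have e : (m : ℝ) * ∑ j ∈ range (l + 1), (-1) ^ j * es N j - rho N * m =
        m * (∑ j ∈ range (l + 1), (-1) ^ j * es N j - rho N) := by ring
    rw [e, abs_mul, abs_of_nonneg hm, abs_sub_comm]
    exact mul_le_mul_of_nonneg_left h2 hm
  rw [abs_le] at h1 h4 h5 ⊢
  constructor <;> linarith [h1.1, h1.2, h4.1, h4.2, h5.1, h5.2]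

theorem es_le (N j : ℕ) {y : ℝ} (hy : 0 < y) :
    es N j ≤ Real.exp (y * ∑ p ∈ Nat.primesBelow N, 1 / (p : ℝ) - j * Real.log y) := by
  classical
  have h1 : y ^ j * es N j ≤ ∏ p ∈ Nat.primesBelow N, (1 + y * (1 / (p : ℝ))) := by
    rw [Finset.prod_one_add]
    unfold es
    rw [Finset.mul_sum]
    calc ∑ D ∈ (Nat.primesBelow N).powersetCard j, y ^ j * (1 / (pd D : ℝ))
        = ∑ D ∈ (Nat.primesBelow N).powersetCard j, ∏ p ∈ D, (y * (1 / (p : ℝ))) := by
          refine Finset.sum_congr rfl fun D hD => ?_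
          rw [Finset.prod_mul_distrib, Finset.prod_const, (Finset.mem_powersetCard.mp hD).2]
          congr 1
          unfold pd
          push_cast
          rw [Finset.prod_div_distrib]
          simp
      _ ≤ ∑ D ∈ (Nat.primesBelow N).powerset, ∏ p ∈ D, (y * (1 / (p : ℝ))) := by
          refine Finset.sum_le_sum_of_subset_of_nonneg ?_ ?_
          · intro D hD
            exact Finset.mem_powerset.mpr (Finset.mem_powersetCard.mp hD).1
          · intro D _ _
            exact Finset.prod_nonneg fun p _ => by positivity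
  have h2 : ∏ p ∈ Nat.primesBelow N, (1 + y * (1 / (p : ℝ))) ≤
      Real.exp (y * ∑ p ∈ Nat.primesBelow N, 1 / (p : ℝ)) := by
    rw [Finset.mul_sum, Real.exp_sum]
    refine Finset.prod_le_prod (fun p _ => by positivity) fun p _ => ?_
    rw [add_comm]
    exact Real.add_one_le_exp _
  have h3 : y ^ j = Real.exp (j * Real.log y) := by
    rw [mul_comm, Real.exp_mul, Real.exp_log hy, Real.rpow_natCast]
  rw [Real.exp_sub, le_div_iff₀ (Real.exp_pos _), ← h3, mul_comm]
  exact h1.trans h2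

theorem sum_choose_le (a l : ℕ) {z : ℝ} (hz : 1 ≤ z) :
    ∑ j ∈ range (l + 1), (a.choose j : ℝ) ≤ z ^ l * Real.exp (a / z) := by
  have hz0 : 0 < z := by linarith
  have h1 : (1 + 1 / z) ^ a ≤ Real.exp (a / z) := by
    have h2 : 1 + 1 / z ≤ Real.exp (1 / z) := by
      rw [add_comm]
      exact Real.add_one_le_exp _
    calc (1 + 1 / z) ^ a ≤ (Real.exp (1 / z)) ^ a := pow_le_pow_left₀ (by positivity) h2 a
      _ = Real.exp (a / z) := by
        rw [← Real.exp_nat_mul]
        congr 1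
        ring
  refine le_trans ?_ (mul_le_mul_of_nonneg_left h1 (by positivity))
  rw [add_comm (1 : ℝ), add_pow, Finset.mul_sum]
  have h3 : ∑ j ∈ range (l + 1), (a.choose j : ℝ) ≤
      ∑ j ∈ range (l + 1), z ^ l * ((1 / z) ^ j * 1 ^ (a - j) * (a.choose j : ℝ)) := by
    refine Finset.sum_le_sum fun j hj => ?_
    rw [Finset.mem_range] at hj
    have h4 : 1 ≤ z ^ l * (1 / z) ^ j := by
      have h5 : z ^ l = z ^ (l - j) * z ^ j := by
        rw [← pow_add]
        congr 1
        omega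
      rw [h5, one_div, inv_pow, mul_assoc, mul_inv_cancel₀ (by positivity), mul_one]
      exact one_le_pow₀ hz
    have h6 : (0 : ℝ) ≤ (a.choose j : ℝ) := by positivity
    calc (a.choose j : ℝ) = 1 * (a.choose j : ℝ) := by ring
      _ ≤ z ^ l * (1 / z) ^ j * (a.choose j : ℝ) := mul_le_mul_of_nonneg_right h4 h6
      _ = z ^ l * ((1 / z) ^ j * 1 ^ (a - j) * (a.choose j : ℝ)) := by
        rw [one_pow]
        ring
  refine h3.trans ?_
  rcases le_total l a with hla | hla
  · exact Finset.sum_le_sum_of_subset_of_nonneg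
      (Finset.range_subset_range.mpr (by omega)) fun _ _ _ => by positivity
  · rw [← Finset.sum_subset (Finset.range_subset_range.mpr (by omega : a + 1 ≤ l + 1))]
    intro j _ hj
    rw [Finset.mem_range] at hj
    rw [Nat.choose_eq_zero_of_lt (by omega)]
    simp

end Pool.Agent.KS6_20.DR
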