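import Mathlib
import Pool.Agent.KS6_20.DR.Core
import Pool.Agent.KS6_20.DR.Sieve

/-!
The error of the main term: Brun's sieve for the small smooth numbers, Rankin's trick for the others.
-/

set_option autoImplicit false

namespace Pool.Agent.KS6_20.DR

open Finset Filter Topology
open Pool.Agent.Y924.DV (rho rho_nonneg rho_le_one rgh rgh_card_le sum_swap)

/-- the powers of the smooth numbers -/
noncomputable def sw (N : ℕ) (σ : ℝ) : ℕ → ℝ :=
  Set.indicator (Nat.smoothNumbers N) (fun m : ℕ => (m : ℝ) ^ (-(1 - σ)))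

theorem sw_nonneg (N : ℕ) (σ : ℝ) (m : ℕ) : 0 ≤ sw N σ m := by
  unfold sw
  apply Set.indicator_nonneg
  intro m _
  positivity

theorem euler (N : ℕ) {σ : ℝ} (hσ : σ ≤ 1 / 2) : Summable (sw N σ) ∧
    ∑' m, sw N σ m = ∏ p ∈ Nat.primesBelow N, (1 - (p : ℝ) ^ (-(1 - σ)))⁻¹ := by
  let φ : ℕ →* ℝ :=
    { toFun := fun m => (m : ℝ) ^ (-(1 - σ))
      map_one' := by simp
      map_mul' := by
        intro a b
        push_cast
        exact Real.mul_rpow (by positivity) (by positivity) }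
  have h : ∀ {p : ℕ}, p.Prime → ‖φ p‖ < 1 := by
    intro p hp
    change ‖(p : ℝ) ^ (-(1 - σ))‖ < 1
    rw [Real.norm_of_nonneg (by positivity)]
    exact Real.rpow_lt_one_of_one_lt_of_neg (by exact_mod_cast hp.one_lt) (by linarith)
  obtain ⟨h1, h2⟩ := EulerProduct.summable_and_hasSum_smoothNumbers_prod_primesBelow_geometric h N
  have h3 : Summable (sw N σ) := by
    unfold sw
    rw [← summable_subtype_iff_indicator]
    refine h1.congr ?_
    intro m
    change ‖((m : ℕ) : ℝ) ^ (-(1 - σ))‖ = _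
    rw [Real.norm_of_nonneg (by positivity)]
    rfl
  refine ⟨h3, ?_⟩
  have h4 := h2.tsum_eq
  unfold sw
  rw [← _root_.tsum_subtype]
  exact h4

theorem tsum_sw_succ (N : ℕ) {σ : ℝ} (hσ : σ ≤ 1 / 2) :
    Summable (fun t => sw N σ (t + 1)) ∧ ∑' t, sw N σ (t + 1) ≤ ∑' m, sw N σ m := by
  have h := (euler N hσ).1
  refine ⟨(summable_nat_add_iff 1).mpr h, ?_⟩
  rw [h.tsum_eq_zero_add]
  have := sw_nonneg N σ 0
  linarith

theorem factor_le {x : ℝ} (h0 : 0 ≤ x) (h1 : x ≤ 3 / 4) : (1 - x)⁻¹ ≤ Real.exp (4 * x) := by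
  have h2 : 4 * x + 1 ≤ Real.exp (4 * x) := Real.add_one_le_exp _
  have h3 : 0 < 1 - x := by linarith
  rw [inv_le_iff_one_le_mul₀ h3]
  have h4 : 1 ≤ (4 * x + 1) * (1 - x) := by nlinarith
  exact h4.trans (mul_le_mul_of_nonneg_right h2 h3.le)

theorem euler_le (N : ℕ) {σ k : ℝ} (h0 : 0 ≤ σ) (hσ : σ ≤ 1 / 2)
    (hk : ∀ p ∈ Nat.primesBelow N, Real.log p ≤ k) :
    ∑' m, sw N σ m ≤ Real.exp (4 * (∑ p ∈ Nat.primesBelow N, 1 / (p : ℝ) +
      σ * Real.exp (σ * k) * ∑ p ∈ Nat.primesBelow N, Real.log p / p)) := by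
  rw [(euler N hσ).2]
  have h1 : ∀ p ∈ Nat.primesBelow N, (p : ℝ) ^ (-(1 - σ)) ≤
      1 / p + σ * Real.exp (σ * k) * (Real.log p / p) := by
    intro p hp
    have hpp := Nat.prime_of_mem_primesBelow hp
    have hp0 : (0 : ℝ) < p := by exact_mod_cast hpp.pos
    have hlog : 0 ≤ Real.log p := Real.log_nonneg (by exact_mod_cast hpp.one_lt.le)
    have e1 : (p : ℝ) ^ (-(1 - σ)) = Real.exp (σ * Real.log p) / p := by
      have e2 : -(1 - σ) = σ - 1 := by ring
      rw [e2, Real.rpow_sub hp0, Real.rpow_one, Real.rpow_def_of_pos hp0, mul_comm σ]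
    rw [e1]
    have e3 : Real.exp (σ * Real.log p) ≤ 1 + σ * Real.log p * Real.exp (σ * Real.log p) := by
      have h5 := Real.add_one_le_exp (-(σ * Real.log p))
      have h6 : 0 < Real.exp (σ * Real.log p) := Real.exp_pos _
      have h7 : Real.exp (-(σ * Real.log p)) * Real.exp (σ * Real.log p) = 1 := by
        rw [← Real.exp_add]
        simp
      nlinarith
    have e4 : Real.exp (σ * Real.log p) ≤ Real.exp (σ * k) :=
      Real.exp_le_exp.mpr (mul_le_mul_of_nonneg_left (hk p hp) h0)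
    have e5 : σ * Real.log p * Real.exp (σ * Real.log p) ≤ σ * Real.log p * Real.exp (σ * k) :=
      mul_le_mul_of_nonneg_left e4 (mul_nonneg h0 hlog)
    calc Real.exp (σ * Real.log p) / p ≤ (1 + σ * Real.log p * Real.exp (σ * k)) / p := by
          gcongr
          linarith
      _ = 1 / p + σ * Real.exp (σ * k) * (Real.log p / p) := by ring
  have h2 : ∀ p ∈ Nat.primesBelow N, (p : ℝ) ^ (-(1 - σ)) ≤ 3 / 4 := by
    intro p hp
    have hpp := Nat.prime_of_mem_primesBelow hp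
    have hp2 : (2 : ℝ) ≤ p := by exact_mod_cast hpp.two_le
    have h3 : (p : ℝ) ^ (-(1 - σ)) ≤ (p : ℝ) ^ (-(1 / 2 : ℝ)) :=
      Real.rpow_le_rpow_of_exponent_le (by linarith) (by linarith)
    refine h3.trans ?_
    rw [Real.rpow_neg (by linarith), ← Real.sqrt_eq_rpow]
    have h4 : (4 / 3 : ℝ) ≤ √(p : ℝ) := by
      apply Real.le_sqrt_of_sq_le
      norm_num
      linarith
    rw [inv_le_comm₀ (by positivity) (by norm_num)]
    linarith
  calc ∏ p ∈ Nat.primesBelow N, (1 - (p : ℝ) ^ (-(1 - σ)))⁻¹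
      ≤ ∏ p ∈ Nat.primesBelow N, Real.exp (4 * (1 / p + σ * Real.exp (σ * k) * (Real.log p / p))) := by
        refine Finset.prod_le_prod (fun p hp => ?_) fun p hp => ?_
        · have := h2 p hp
          exact inv_nonneg.mpr (by linarith)
        · refine (factor_le (by positivity) (h2 p hp)).trans ?_
          exact Real.exp_le_exp.mpr (by linarith [h1 p hp])
    _ = _ := by
        rw [← Real.exp_sum, ← Finset.mul_sum, Finset.sum_add_distrib, ← Finset.mul_sum]

/-- the error of the main term -/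
theorem main_err {F : Set (Set ℕ)} (hF : ∀ D ∈ F, D.Nonempty) (N n l Q : ℕ) (hQ : 0 < Q) {σ : ℝ}
    (h0 : 0 ≤ σ) (hσ : σ ≤ 1 / 2) :
    |∑ v ∈ rgh N n, (g F N (n / v) : ℝ) - cc F N * n| ≤
      ∑ t ∈ range Q, (∑ j ∈ range (l + 1), ((Nat.primesBelow N).card.choose j : ℝ) + 1 +
        2 * (n / ((t : ℝ) + 1)) * es N (l + 1)) +
      n * (Q : ℝ) ^ (-σ) * ∑' m, sw N σ m := by
  classical
  obtain ⟨A, hA⟩ : ∃ A, A = ∑ j ∈ range (l + 1), ((Nat.primesBelow N).card.choose j : ℝ) := ⟨_, rfl⟩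
  obtain ⟨E, hE⟩ : ∃ E, E = es N (l + 1) := ⟨_, rfl⟩
  rw [← hA, ← hE]
  have hA0 : 0 ≤ A := by
    rw [hA]
    exact Finset.sum_nonneg fun j _ => Nat.cast_nonneg _
  have hE0 : 0 ≤ E := by
    rw [hE]
    unfold es
    positivity
  have hn0 : (0 : ℝ) ≤ n := by positivity
  have hQ0 : (0 : ℝ) < Q := by exact_mod_cast hQ
  have hr0 := rho_nonneg N
  have hr1 := rho_le_one N
  -- the two series
  have hg0 : (fun j => (g F N j : ℝ)) 0 = 0 := by simp [g_zero hF]
  have e1 : ∑ v ∈ rgh N n, (g F N (n / v) : ℝ) = ∑' t : ℕ, ((g F N (t + 1) : ℝ) - g F N t) *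
      ((rgh N (n / (t + 1))).card : ℝ) := sum_swap N n (fun j => (g F N j : ℝ)) hg0
  have hs1 : Summable (fun t : ℕ => ((g F N (t + 1) : ℝ) - g F N t) *
      ((rgh N (n / (t + 1))).card : ℝ)) := by
    refine summable_of_ne_finset_zero (s := Finset.range n) ?_
    intro t ht
    rw [Finset.mem_range] at ht
    have : n / (t + 1) = 0 := Nat.div_eq_of_lt (by omega)
    rw [this]
    have h0 : (rgh N 0).card = 0 := by simp [rgh]
    rw [h0]
    simp
  have hs2 : Summable (fun t : ℕ => ((g F N (t + 1) : ℝ) - g F N t) *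
      (rho N * (n / ((t : ℝ) + 1)))) := by
    refine ((summable_delta hF N).mul_left (rho N * n)).congr fun t => ?_
    ring
  have e2 : cc F N * n = ∑' t : ℕ, ((g F N (t + 1) : ℝ) - g F N t) *
      (rho N * (n / ((t : ℝ) + 1))) := by
    rw [(cc_eq hF N).2, mul_right_comm, ← tsum_mul_left]
    refine tsum_congr fun t => ?_
    ring
  rw [e1, e2, ← hs1.tsum_sub hs2]
  have hfin : Summable (fun t : ℕ => if t < Q then A + 1 + 2 * (n / ((t : ℝ) + 1)) * E else 0) := by
    refine summable_of_ne_finset_zero (s := Finset.range Q) ?_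
    intro t ht
    rw [Finset.mem_range] at ht
    rw [if_neg ht]
  have hfin2 : ∑' t : ℕ, (if t < Q then A + 1 + 2 * (n / ((t : ℝ) + 1)) * E else 0) =
      ∑ t ∈ range Q, (A + 1 + 2 * (n / ((t : ℝ) + 1)) * E) := by
    rw [tsum_eq_sum (s := Finset.range Q)]
    · refine Finset.sum_congr rfl fun t ht => ?_
      rw [if_pos (Finset.mem_range.mp ht)]
    · intro t ht
      rw [Finset.mem_range] at ht
      rw [if_neg ht]
  have hsw := tsum_sw_succ N hσ
  have hb : Summable (fun t : ℕ => (if t < Q then A + 1 + 2 * (n / ((t : ℝ) + 1)) * E else 0) +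
      n * (Q : ℝ) ^ (-σ) * sw N σ (t + 1)) := hfin.add (hsw.1.mul_left _)
  have hpt : ∀ t : ℕ, ‖((g F N (t + 1) : ℝ) - g F N t) * ((rgh N (n / (t + 1))).card : ℝ) -
      ((g F N (t + 1) : ℝ) - g F N t) * (rho N * (n / ((t : ℝ) + 1)))‖ ≤
      (if t < Q then A + 1 + 2 * (n / ((t : ℝ) + 1)) * E else 0) +
      n * (Q : ℝ) ^ (-σ) * sw N σ (t + 1) := by
    intro t
    obtain ⟨d0, d1, d2⟩ := delta_mem hF N t
    have ht1 : (0 : ℝ) < (t : ℝ) + 1 := by positivity
    have hsw0 := sw_nonneg N σ (t + 1)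
    have hx : 0 ≤ (n : ℝ) / ((t : ℝ) + 1) := by positivity
    have hif : 0 ≤ (if t < Q then A + 1 + 2 * (n / ((t : ℝ) + 1)) * E else 0) := by
      split_ifs
      · positivity
      · exact le_refl _
    have hsec : 0 ≤ n * (Q : ℝ) ^ (-σ) * sw N σ (t + 1) := by positivity
    rw [← mul_sub, norm_mul, Real.norm_eq_abs, Real.norm_eq_abs, abs_of_nonneg d0]
    by_cases hs : t + 1 ∈ Nat.smoothNumbers N
    · have hle : ((g F N (t + 1) : ℝ) - g F N t) * |((rgh N (n / (t + 1))).card : ℝ) -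
          rho N * (n / ((t : ℝ) + 1))| ≤
          |((rgh N (n / (t + 1))).card : ℝ) - rho N * (n / ((t : ℝ) + 1))| :=
        mul_le_of_le_one_left (abs_nonneg _) d1
      refine hle.trans ?_
      have hm1 : ((n / (t + 1) : ℕ) : ℝ) ≤ n / ((t : ℝ) + 1) := by
        have := @Nat.cast_div_le ℝ _ _ _ n (t + 1)
        push_cast at this
        exact this
      have hm2 : (n : ℝ) / ((t : ℝ) + 1) - 1 ≤ ((n / (t + 1) : ℕ) : ℝ) := by
        have := Nat.lt_mul_div_succ n (Nat.succ_pos t)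
        have h4 : (n : ℝ) < ((t : ℝ) + 1) * (((n / (t + 1) : ℕ) : ℝ) + 1) := by exact_mod_cast this
        have h5 : (n : ℝ) / ((t : ℝ) + 1) < ((n / (t + 1) : ℕ) : ℝ) + 1 := by
          rw [div_lt_iff₀ ht1]; linarith
        linarith
      rcases lt_or_ge t Q with htQ | htQ
      · rw [if_pos htQ]
        have hbr := brun N (n / (t + 1)) l
        rw [← hA, ← hE] at hbr
        have a1 : 2 * ((n / (t + 1) : ℕ) : ℝ) * E ≤ 2 * (n / ((t : ℝ) + 1)) * E := by
          apply mul_le_mul_of_nonneg_right _ hE0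
          linarith
        have a2 : rho N * ((n / (t + 1) : ℕ) : ℝ) ≤ rho N * (n / ((t : ℝ) + 1)) :=
          mul_le_mul_of_nonneg_left hm1 hr0
        have a3 : rho N * (n / ((t : ℝ) + 1) - 1) ≤ rho N * ((n / (t + 1) : ℕ) : ℝ) :=
          mul_le_mul_of_nonneg_left hm2 hr0
        rw [abs_le] at hbr ⊢
        constructor
        · nlinarith [hbr.1, hbr.2]
        · nlinarith [hbr.1, hbr.2]
      · rw [if_neg (by omega), zero_add]
        have b1 : |((rgh N (n / (t + 1))).card : ℝ) - rho N * (n / ((t : ℝ) + 1))| ≤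
            n / ((t : ℝ) + 1) := by
          have c1 : ((rgh N (n / (t + 1))).card : ℝ) ≤ n / ((t : ℝ) + 1) := by
            refine le_trans ?_ hm1
            exact_mod_cast rgh_card_le N _
          have c2 : (0 : ℝ) ≤ ((rgh N (n / (t + 1))).card : ℝ) := by positivity
          have c3 : rho N * (n / ((t : ℝ) + 1)) ≤ n / ((t : ℝ) + 1) := mul_le_of_le_one_left hx hr1
          have c4 : 0 ≤ rho N * (n / ((t : ℝ) + 1)) := mul_nonneg hr0 hx
          rw [abs_le]
          constructor <;> linarith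
        refine b1.trans ?_
        unfold sw
        rw [Set.indicator_of_mem hs]
        push_cast
        have hQt : (Q : ℝ) ≤ (t : ℝ) + 1 := by
          have : Q ≤ t + 1 := by omega
          exact_mod_cast this
        have c5 : ((t : ℝ) + 1) ^ (-σ) ≤ (Q : ℝ) ^ (-σ) :=
          Real.rpow_le_rpow_of_nonpos hQ0 hQt (by linarith)
        have c6 : ((t : ℝ) + 1) ^ (-σ) * ((t : ℝ) + 1) ^ (-(1 - σ)) = 1 / ((t : ℝ) + 1) := by
          rw [← Real.rpow_add ht1]
          have : -σ + -(1 - σ) = -1 := by ring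
          rw [this, Real.rpow_neg_one, one_div]
        have c7 : 0 ≤ ((t : ℝ) + 1) ^ (-(1 - σ)) := by positivity
        calc (n : ℝ) / ((t : ℝ) + 1) = n * (((t : ℝ) + 1) ^ (-σ) * ((t : ℝ) + 1) ^ (-(1 - σ))) := by
              rw [c6]; ring
          _ ≤ n * ((Q : ℝ) ^ (-σ) * ((t : ℝ) + 1) ^ (-(1 - σ))) := by gcongr
          _ = n * (Q : ℝ) ^ (-σ) * ((t : ℝ) + 1) ^ (-(1 - σ)) := by ring
    · rw [d2 hs, zero_mul]
      linarith
  have hns : Summable (fun t : ℕ => ‖((g F N (t + 1) : ℝ) - g F N t) *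
      ((rgh N (n / (t + 1))).card : ℝ) -
      ((g F N (t + 1) : ℝ) - g F N t) * (rho N * (n / ((t : ℝ) + 1)))‖) :=
    Summable.of_nonneg_of_le (fun _ => norm_nonneg _) hpt hb
  rw [← Real.norm_eq_abs]
  refine (norm_tsum_le_tsum_norm hns).trans ((hns.tsum_le_tsum hpt hb).trans ?_)
  rw [hfin.tsum_add (hsw.1.mul_left _), hfin2, tsum_mul_left]
  have : n * (Q : ℝ) ^ (-σ) * ∑' t, sw N σ (t + 1) ≤ n * (Q : ℝ) ^ (-σ) * ∑' m, sw N σ m :=
    mul_le_mul_of_nonneg_left hsw.2 (by positivity)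
  linarith

end Pool.Agent.KS6_20.DR
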