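import Mathlib
import Pool.Agent.KS6_20.DR.Tail
import Pool.Graph.R_seed8.Helper256.KM.Mertens

/-!
The rate of convergence: the choice of the parameters.
-/

set_option autoImplicit false

namespace Pool.Agent.KS6_20.DR

open Finset Filter Topology
open Pool.Agent.Y924.DV (rho rho_nonneg rho_le_one rgh rgh_card_le sum_swap)

/-- the parameters -/
theorem params {L : ℝ} (hL : 1 ≤ Real.log L) (hL0 : 0 < L) :
    0 < √(L * Real.log L) ∧
    L / √(L * Real.log L) * √(L * Real.log L) = L ∧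
    L / √(L * Real.log L) ≤ √(L * Real.log L) ∧
    1 ≤ L / √(L * Real.log L) ∧
    √(L * Real.log L) / 4 ≤ L / √(L * Real.log L) * Real.log (L / √(L * Real.log L)) := by
  obtain ⟨l, hl⟩ : ∃ l, l = Real.log L := ⟨_, rfl⟩
  rw [← hl] at hL ⊢
  have hl0 : 0 < l := by linarith
  have hk0 : 0 < L * l := mul_pos hL0 hl0
  have hk : 0 < √(L * l) := Real.sqrt_pos.mpr hk0
  have hk2 : √(L * l) * √(L * l) = L * l := Real.mul_self_sqrt hk0.le
  obtain ⟨k, hkk⟩ : ∃ k, k = √(L * l) := ⟨_, rfl⟩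
  have hlogk : Real.log (√(L * l)) = (l + Real.log l) / 2 := by
    rw [Real.log_sqrt hk0.le, Real.log_mul hL0.ne' hl0.ne', ← hl]
  have hlogl : Real.log l ≤ l / 2 := by
    have h1 : Real.log (√l) ≤ √l - 1 := Real.log_le_sub_one_of_pos (Real.sqrt_pos.mpr hl0)
    rw [Real.log_sqrt hl0.le] at h1
    have h2 : √l * √l = l := Real.mul_self_sqrt hl0.le
    nlinarith [sq_nonneg (√l - 2)]
  have hlogu : Real.log (L / √(L * l)) = l - (l + Real.log l) / 2 := by
    rw [Real.log_div hL0.ne' hk.ne', hlogk, ← hl]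
  rw [← hkk] at hk hk2 hlogu ⊢
  have hu0 : 0 < L / k := div_pos hL0 hk
  have hlu : l / 4 ≤ Real.log (L / k) := by
    rw [hlogu]; linarith
  refine ⟨hk, by field_simp, ?_, ?_, ?_⟩
  · rw [div_le_iff₀ hk, hk2]
    nlinarith
  · have : 0 < Real.log (L / k) := by linarith
    rw [Real.log_pos_iff hu0.le] at this
    exact this.le
  · have h1 : L / k * l = k := by
      rw [div_mul_eq_mul_div, ← hk2]
      field_simp
    have h2 : k / 4 = L / k * (l / 4) := by
      calc k / 4 = (L / k * l) / 4 := by rw [h1]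
        _ = L / k * (l / 4) := by ring
    rw [h2]
    exact mul_le_mul_of_nonneg_left hlu hu0.le

/-- Mertens for the primes up to `exp k` -/
theorem mertens_exp : ∃ C : ℝ, 0 ≤ C ∧ ∀ k : ℝ, 2 ≤ k →
    ∑ p ∈ Nat.primesBelow (⌊Real.exp k⌋₊ + 1), 1 / (p : ℝ) ≤ Real.log k + C ∧
    ∑ p ∈ Nat.primesBelow (⌊Real.exp k⌋₊ + 1), Real.log p / p ≤ k + C := by
  obtain ⟨C1, h1⟩ := Pool.Agent.Helper256.KM.mertens_inv
  obtain ⟨C2, h2⟩ := Pool.Agent.Helper256.KM.mertens_log
  refine ⟨|C1| + |C2|, by positivity, fun k hk => ?_⟩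
  obtain ⟨M, hM⟩ : ∃ M, M = ⌊Real.exp k⌋₊ := ⟨_, rfl⟩
  have hM3 : 3 ≤ M := by
    rw [hM]
    apply Nat.le_floor
    have := Real.add_one_le_exp k
    push_cast
    linarith
  have hMle : (M : ℝ) ≤ Real.exp k := by
    rw [hM]
    exact Nat.floor_le (Real.exp_pos _).le
  have hM0 : (0 : ℝ) < M := by
    have : 0 < M := by omega
    exact_mod_cast this
  have hM3' : (3 : ℝ) ≤ M := by exact_mod_cast hM3
  have hlog : Real.log M ≤ k := by
    rw [← Real.log_exp k]
    exact Real.log_le_log hM0 hMle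
  have hlog0 : 0 < Real.log M := Real.log_pos (by linarith)
  have hset : Nat.primesBelow (M + 1) = (Finset.Icc 1 M).filter Nat.Prime := by
    ext p
    simp only [Nat.mem_primesBelow, Finset.mem_filter, Finset.mem_Icc]
    constructor
    · rintro ⟨a, b⟩
      exact ⟨⟨b.pos, by omega⟩, b⟩
    · rintro ⟨⟨a, b⟩, c⟩
      exact ⟨by omega, c⟩
  rw [← hM, hset]
  have a1 := (abs_le.mp (h1 M hM3)).2
  have a2 := (abs_le.mp (h2 M (by omega))).2
  have b1 : Real.log (Real.log M) ≤ Real.log k := Real.log_le_log hlog0 hlog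
  have c1 := le_abs_self C1
  have c2 := le_abs_self C2
  have c3 := abs_nonneg C1
  have c4 := abs_nonneg C2
  constructor <;> linarith

theorem primes_exp {k : ℝ} :
    ((Nat.primesBelow (⌊Real.exp k⌋₊ + 1)).card : ℝ) ≤ Real.exp k ∧
    (∀ p ∈ Nat.primesBelow (⌊Real.exp k⌋₊ + 1), Real.log p ≤ k) := by
  constructor
  · have h1 : (Nat.primesBelow (⌊Real.exp k⌋₊ + 1)).card ≤ ⌊Real.exp k⌋₊ := by
      have h2 : Nat.primesBelow (⌊Real.exp k⌋₊ + 1) ⊆ Finset.Icc 1 ⌊Real.exp k⌋₊ := by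
        intro p hp
        rw [Nat.mem_primesBelow] at hp
        rw [Finset.mem_Icc]
        exact ⟨hp.2.pos, by omega⟩
      calc _ ≤ (Finset.Icc 1 ⌊Real.exp k⌋₊).card := Finset.card_le_card h2
        _ = _ := by simp
    have h3 : ((Nat.primesBelow (⌊Real.exp k⌋₊ + 1)).card : ℝ) ≤ (⌊Real.exp k⌋₊ : ℝ) := by
      exact_mod_cast h1
    exact h3.trans (Nat.floor_le (Real.exp_pos _).le)
  · intro p hp
    rw [Nat.mem_primesBelow] at hp
    have h1 : (p : ℝ) ≤ (⌊Real.exp k⌋₊ : ℝ) := by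
      have : p ≤ ⌊Real.exp k⌋₊ := by omega
      exact_mod_cast this
    have h2 : (p : ℝ) ≤ Real.exp k := h1.trans (Nat.floor_le (Real.exp_pos _).le)
    have h3 : (0 : ℝ) < p := by exact_mod_cast hp.2.pos
    rw [← Real.log_exp k]
    exact Real.log_le_log h3 h2

theorem sum_inv_le (Q : ℕ) : ∑ t ∈ range Q, 1 / ((t : ℝ) + 1) ≤ 1 + Real.log Q := by
  have h := harmonic_le_one_add_log Q
  unfold harmonic at h
  push_cast at h
  simpa [one_div] using h

/-- the error of the main term for the chosen parameters -/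
theorem err_bound {F : Set (Set ℕ)} (hF : ∀ D ∈ F, D.Nonempty) {C : ℝ} (hC : 0 ≤ C)
    (hM : ∀ k : ℝ, 2 ≤ k →
      ∑ p ∈ Nat.primesBelow (⌊Real.exp k⌋₊ + 1), 1 / (p : ℝ) ≤ Real.log k + C ∧
      ∑ p ∈ Nat.primesBelow (⌊Real.exp k⌋₊ + 1), Real.log p / p ≤ k + C)
    {n : ℕ} {L k u : ℝ} (hn : (n : ℝ) = Real.exp L) (hk : 2 ≤ k) (huk : u * k = L) (hu : u ≤ k)
    (hu1 : 1 ≤ u) (hul : k / 4 ≤ u * Real.log u) :
    |∑ v ∈ rgh (⌊Real.exp k⌋₊ + 1) n, (g F (⌊Real.exp k⌋₊ + 1) (n / v) : ℝ) -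
      cc F (⌊Real.exp k⌋₊ + 1) * n| ≤
      n * (2 * Real.exp (1 - k / 4) + 2 * (1 + k ^ 2) * Real.exp (√k * (Real.log k + C) - k / 32) +
        Real.exp (1 / 2 - k / 16 + 4 * (Real.log k + C + √k * Real.log k * (1 + C)))) := by
  obtain ⟨N, hN⟩ : ∃ N, N = ⌊Real.exp k⌋₊ + 1 := ⟨_, rfl⟩
  obtain ⟨hM1, hM2⟩ := hM k hk
  obtain ⟨hP1, hP2⟩ := @primes_exp k
  rw [← hN] at hM1 hM2 hP1 hP2 ⊢
  have hk0 : 0 < k := by linarith
  have hu0 : 0 < u := by linarith
  have hlogu0 : 0 ≤ Real.log u := Real.log_nonneg hu1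
  have hloguk : Real.log u ≤ Real.log k := Real.log_le_log hu0 hu
  have hlogk0 : 0 ≤ Real.log k := hlogu0.trans hloguk
  have hloguk2 : Real.log u ≤ k := (Real.log_le_self hu0.le).trans hu
  have hLk : k ≤ L := by rw [← huk]; nlinarith
  have hLk2 : L ≤ k ^ 2 := by rw [← huk]; nlinarith
  have hn1 : (1 : ℝ) ≤ n := by
    rw [hn]
    exact Real.one_le_exp (by linarith)
  have hn0 : (0 : ℝ) < n := by linarith
  obtain ⟨Q, hQ⟩ : ∃ Q, Q = Nat.sqrt n := ⟨_, rfl⟩
  have hQ1 : Q * Q ≤ n := by rw [hQ]; exact Nat.sqrt_le n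
  have hQ2 : n < (Q + 1) * (Q + 1) := by rw [hQ]; exact Nat.lt_succ_sqrt n
  have hn1' : 1 ≤ n := by exact_mod_cast hn1
  have hQ0 : 0 < Q := by
    by_contra h0
    have : Q = 0 := by omega
    subst this
    omega
  have hQ0' : (1 : ℝ) ≤ Q := by exact_mod_cast hQ0
  have hhalf : Real.exp (L / 2) * Real.exp (L / 2) = n := by
    rw [hn, ← Real.exp_add]
    congr 1
    ring
  have hexp0 : 0 < Real.exp (L / 2) := Real.exp_pos _
  have hQle : (Q : ℝ) ≤ Real.exp (L / 2) := by
    have h1 : (Q : ℝ) * Q ≤ n := by exact_mod_cast hQ1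
    rw [← hhalf] at h1
    nlinarith
  have hQge : Real.exp (L / 2) ≤ 2 * Q := by
    have h1 : (n : ℝ) < ((Q : ℝ) + 1) * (Q + 1) := by exact_mod_cast hQ2
    rw [← hhalf] at h1
    have h2 : Real.exp (L / 2) < Q + 1 := by nlinarith
    linarith
  obtain ⟨l, hl⟩ : ∃ l, l = ⌊u / 4⌋₊ := ⟨_, rfl⟩
  have hl1 : (l : ℝ) ≤ u / 4 := by
    rw [hl]
    exact Nat.floor_le (by positivity)
  have hl2 : u / 4 < (l : ℝ) + 1 := by
    rw [hl]
    exact Nat.lt_floor_add_one _
  obtain ⟨σ, hσ⟩ : ∃ σ, σ = Real.log u / (2 * k) := ⟨_, rfl⟩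
  have hσ0 : 0 ≤ σ := by rw [hσ]; positivity
  have hσ1 : σ ≤ 1 / 2 := by
    rw [hσ, div_le_iff₀ (by positivity)]
    linarith
  refine (main_err hF N n l Q hQ0 hσ0 hσ1).trans ?_
  -- the three estimates
  obtain ⟨A, hA⟩ : ∃ A, A = ∑ j ∈ range (l + 1), ((Nat.primesBelow N).card.choose j : ℝ) := ⟨_, rfl⟩
  obtain ⟨E, hE⟩ : ∃ E, E = es N (l + 1) := ⟨_, rfl⟩
  rw [← hA, ← hE]
  have hsum : ∑ t ∈ range Q, (A + 1 + 2 * (n / ((t : ℝ) + 1)) * E) =
      Q * (A + 1) + 2 * n * E * ∑ t ∈ range Q, 1 / ((t : ℝ) + 1) := by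
    rw [Finset.sum_add_distrib, Finset.sum_const, Finset.card_range, nsmul_eq_mul, Finset.mul_sum]
    congr 1
    refine Finset.sum_congr rfl fun t _ => ?_
    ring
  have hE0 : 0 ≤ E := by
    rw [hE]
    unfold es
    positivity
  have hA1 : A ≤ Real.exp (L / 4 + 1) := by
    rw [hA]
    refine (sum_choose_le _ l (z := Real.exp k) (Real.one_le_exp hk0.le)).trans ?_
    rw [← Real.exp_nat_mul, ← Real.exp_add]
    apply Real.exp_le_exp.mpr
    have h1 : ((Nat.primesBelow N).card : ℝ) / Real.exp k ≤ 1 := by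
      rw [div_le_one (Real.exp_pos _)]
      exact hP1
    have h2 : (l : ℝ) * k ≤ L / 4 := by
      calc (l : ℝ) * k ≤ u / 4 * k := mul_le_mul_of_nonneg_right hl1 hk0.le
        _ = L / 4 := by rw [← huk]; ring
    linarith
  have hE1 : E ≤ Real.exp (√k * (Real.log k + C) - k / 32) := by
    rw [hE]
    refine (es_le N (l + 1) (y := √u) (Real.sqrt_pos.mpr hu0)).trans ?_
    apply Real.exp_le_exp.mpr
    rw [Real.log_sqrt hu0.le]
    push_cast
    have h1 : √u * ∑ p ∈ Nat.primesBelow N, 1 / (p : ℝ) ≤ √k * (Real.log k + C) := by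
      apply mul_le_mul (Real.sqrt_le_sqrt hu) hM1 (Finset.sum_nonneg fun p _ => by positivity)
        (Real.sqrt_nonneg _)
    have h2 : k / 32 ≤ ((l : ℝ) + 1) * (Real.log u / 2) := by
      calc k / 32 ≤ u * Real.log u / 8 := by linarith
        _ = u / 4 * (Real.log u / 2) := by ring
        _ ≤ _ := mul_le_mul_of_nonneg_right hl2.le (by positivity)
    linarith
  have hT1 : ∑' m, sw N σ m ≤ Real.exp (4 * (Real.log k + C + √k * Real.log k * (1 + C))) := by
    refine (euler_le N hσ0 hσ1 hP2).trans ?_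
    apply Real.exp_le_exp.mpr
    have h1 : Real.exp (σ * k) = √u := by
      have : σ * k = Real.log u / 2 := by
        rw [hσ]
        field_simp
      rw [this, ← Real.log_sqrt hu0.le, Real.exp_log (Real.sqrt_pos.mpr hu0)]
    rw [h1]
    have h2 : σ * √u * ∑ p ∈ Nat.primesBelow N, Real.log p / p ≤ √k * Real.log k * (1 + C) := by
      calc σ * √u * ∑ p ∈ Nat.primesBelow N, Real.log p / p ≤ σ * √u * (k + C) := by
            apply mul_le_mul_of_nonneg_left hM2
            positivity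
        _ ≤ σ * √u * (2 * k * (1 + C)) := by
            apply mul_le_mul_of_nonneg_left _ (by positivity)
            nlinarith
        _ = √u * Real.log u * (1 + C) := by
            rw [hσ]
            field_simp
        _ ≤ √k * Real.log k * (1 + C) := by
            apply mul_le_mul_of_nonneg_right _ (by linarith)
            exact mul_le_mul (Real.sqrt_le_sqrt hu) hloguk hlogu0 (Real.sqrt_nonneg _)
    linarith
  have hQσ : (Q : ℝ) ^ (-σ) ≤ Real.exp (1 / 2 - k / 16) := by
    rw [Real.rpow_def_of_pos (by linarith)]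
    apply Real.exp_le_exp.mpr
    have h1 : L / 2 ≤ Real.log Q + 1 := by
      have h2 : Real.log (Real.exp (L / 2)) ≤ Real.log (2 * Q) := Real.log_le_log hexp0 hQge
      rw [Real.log_exp, Real.log_mul (by norm_num) (by linarith)] at h2
      have h3 := Real.log_two_lt_d9
      linarith
    have h4 : k / 16 ≤ σ * (L / 2) := by
      have : σ * (L / 2) = u * Real.log u / 4 := by
        rw [hσ, ← huk]
        field_simp
        ring
      rw [this]
      linarith
    have h5 : σ * (L / 2) ≤ σ * (Real.log Q + 1) := mul_le_mul_of_nonneg_left h1 hσ0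
    nlinarith
  have t1 : (Q : ℝ) * (A + 1) ≤ n * (2 * Real.exp (1 - k / 4)) := by
    have h1 : A + 1 ≤ 2 * Real.exp (L / 4 + 1) := by
      have : 1 ≤ Real.exp (L / 4 + 1) := Real.one_le_exp (by linarith)
      linarith
    have h0 : 0 ≤ A + 1 := by
      have : 0 ≤ A := by
        rw [hA]
        exact Finset.sum_nonneg fun j _ => Nat.cast_nonneg _
      linarith
    calc (Q : ℝ) * (A + 1) ≤ Real.exp (L / 2) * (2 * Real.exp (L / 4 + 1)) :=
          mul_le_mul hQle h1 h0 hexp0.le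
      _ = n * (2 * Real.exp (1 - L / 4)) := by
          rw [hn]
          have : Real.exp L * (2 * Real.exp (1 - L / 4)) = 2 * (Real.exp L * Real.exp (1 - L / 4)) := by
            ring
          rw [this, ← Real.exp_add, mul_left_comm, ← Real.exp_add]
          congr 2
          ring
      _ ≤ n * (2 * Real.exp (1 - k / 4)) := by
          have : Real.exp (1 - L / 4) ≤ Real.exp (1 - k / 4) := Real.exp_le_exp.mpr (by linarith)
          gcongr
  have t2 : 2 * n * E * ∑ t ∈ range Q, 1 / ((t : ℝ) + 1) ≤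
      n * (2 * (1 + k ^ 2) * Real.exp (√k * (Real.log k + C) - k / 32)) := by
    have h1 : ∑ t ∈ range Q, 1 / ((t : ℝ) + 1) ≤ 1 + k ^ 2 := by
      refine (sum_inv_le Q).trans ?_
      have : Real.log Q ≤ L := by
        have h2 : Real.log Q ≤ Real.log (Real.exp (L / 2)) := Real.log_le_log (by linarith) hQle
        rw [Real.log_exp] at h2
        linarith
      linarith
    have h2 : 0 ≤ ∑ t ∈ range Q, 1 / ((t : ℝ) + 1) := Finset.sum_nonneg fun t _ => by positivity
    calc 2 * n * E * ∑ t ∈ range Q, 1 / ((t : ℝ) + 1)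
        ≤ 2 * n * Real.exp (√k * (Real.log k + C) - k / 32) * (1 + k ^ 2) := by
          apply mul_le_mul _ h1 h2 (by positivity)
          apply mul_le_mul_of_nonneg_left hE1 (by positivity)
      _ = _ := by ring
  have t3 : n * (Q : ℝ) ^ (-σ) * ∑' m, sw N σ m ≤
      n * Real.exp (1 / 2 - k / 16 + 4 * (Real.log k + C + √k * Real.log k * (1 + C))) := by
    rw [mul_assoc]
    apply mul_le_mul_of_nonneg_left _ hn0.le
    rw [Real.exp_add]
    exact mul_le_mul hQσ hT1 (tsum_nonneg (sw_nonneg N σ)) (Real.exp_pos _).le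
  rw [hsum]
  calc _ ≤ n * (2 * Real.exp (1 - k / 4)) +
        n * (2 * (1 + k ^ 2) * Real.exp (√k * (Real.log k + C) - k / 32)) +
        n * Real.exp (1 / 2 - k / 16 + 4 * (Real.log k + C + √k * Real.log k * (1 + C))) := by
        linarith
    _ = _ := by ring

/-- all the errors are small for large `k` -/
theorem small {C : ℝ} (hC : 0 ≤ C) : ∀ᶠ k : ℝ in atTop,
    2 * Real.exp (-k) + (2 * Real.exp (1 - k / 4) +
        2 * (1 + k ^ 2) * Real.exp (√k * (Real.log k + C) - k / 32) +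
        Real.exp (1 / 2 - k / 16 + 4 * (Real.log k + C + √k * Real.log k * (1 + C)))) ≤
      Real.exp (-(1 / 64) * k) := by
  have h1 : (fun k : ℝ => √k * (Real.log k + C)) =o[atTop] (fun k : ℝ => k) := by
    have a1 : (fun k : ℝ => Real.log k + C) =o[atTop] (fun k : ℝ => k ^ (1 / 2 : ℝ)) := by
      apply Asymptotics.IsLittleO.add
      · exact isLittleO_log_rpow_atTop (by norm_num)
      · apply Asymptotics.isLittleO_const_left.mpr
        right
        exact tendsto_norm_atTop_atTop.comp (tendsto_rpow_atTop (by norm_num))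
    have a2 : (fun k : ℝ => √k) =O[atTop] (fun k : ℝ => k ^ (1 / 2 : ℝ)) := by
      apply Asymptotics.isBigO_of_le
      intro k
      rw [Real.sqrt_eq_rpow]
    refine (a2.mul_isLittleO a1).congr' (Eventually.of_forall fun _ => rfl) ?_
    filter_upwards [eventually_gt_atTop 0] with k hk
    rw [← Real.rpow_add hk]
    norm_num
  have h2 := h1.def (show (0 : ℝ) < 1 / (128 * (8 + 4 * C)) by positivity)
  filter_upwards [h2, eventually_ge_atTop 1000] with k hk hk1
  have hk0 : 0 < k := by linarith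
  have hlog0 : 1 ≤ Real.log k := by
    rw [← Real.log_exp 1]
    apply Real.log_le_log (Real.exp_pos _)
    have := Real.exp_one_lt_d9
    linarith
  have hs1 : 1 ≤ √k := by
    rw [Real.one_le_sqrt]
    linarith
  obtain ⟨h, hh⟩ : ∃ h, h = √k * (Real.log k + C) := ⟨_, rfl⟩
  have hh0 : 0 ≤ h := by rw [hh]; positivity
  rw [← hh, Real.norm_of_nonneg hh0, Real.norm_of_nonneg hk0.le, div_mul_eq_mul_div, one_mul,
    le_div_iff₀ (by positivity)] at hk
  have hlogh : Real.log k + C ≤ h := by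
    rw [hh]
    nlinarith
  have hlogh2 : √k * Real.log k ≤ h := by
    rw [hh]
    nlinarith
  rw [← hh]
  -- the second term
  have hk2 : 1 + k ^ 2 ≤ Real.exp (2 * h + 1) := by
    have b1 : Real.exp (2 * Real.log k) = k ^ 2 := by
      rw [two_mul, Real.exp_add, Real.exp_log hk0]
      ring
    have b2 : Real.exp (2 * Real.log k + 1) ≤ Real.exp (2 * h + 1) :=
      Real.exp_le_exp.mpr (by linarith)
    have b3 : 2 * k ^ 2 ≤ Real.exp (2 * Real.log k + 1) := by
      rw [Real.exp_add, b1]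
      have := Real.exp_one_gt_d9
      nlinarith
    have b4 : 1 ≤ k ^ 2 := by nlinarith
    linarith
  have hbig : h * (8 + 4 * C) ≤ k / 128 := by linarith
  have hbig2 : 8 * h ≤ k / 128 := by nlinarith [mul_nonneg hh0 hC]
  have c1 : 2 * Real.exp (-k) ≤ Real.exp (-(1 / 64) * k) / 4 := by
    have : Real.exp (-k) * 8 ≤ Real.exp (-(1 / 64) * k) := by
      have e8 : (8 : ℝ) ≤ Real.exp 7 := by
        have := Real.add_one_le_exp (7 : ℝ)
        linarith
      calc Real.exp (-k) * 8 ≤ Real.exp (-k) * Real.exp 7 := by gcongr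
        _ = Real.exp (-k + 7) := by rw [← Real.exp_add]
        _ ≤ _ := Real.exp_le_exp.mpr (by linarith)
    linarith
  have c2 : 2 * Real.exp (1 - k / 4) ≤ Real.exp (-(1 / 64) * k) / 4 := by
    have : Real.exp (1 - k / 4) * 8 ≤ Real.exp (-(1 / 64) * k) := by
      have e8 : (8 : ℝ) ≤ Real.exp 7 := by
        have := Real.add_one_le_exp (7 : ℝ)
        linarith
      calc Real.exp (1 - k / 4) * 8 ≤ Real.exp (1 - k / 4) * Real.exp 7 := by gcongr
        _ = Real.exp (1 - k / 4 + 7) := by rw [← Real.exp_add]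
        _ ≤ _ := Real.exp_le_exp.mpr (by linarith)
    linarith
  have c3 : 2 * (1 + k ^ 2) * Real.exp (h - k / 32) ≤ Real.exp (-(1 / 64) * k) / 4 := by
    have : (1 + k ^ 2) * Real.exp (h - k / 32) * 8 ≤ Real.exp (-(1 / 64) * k) := by
      have e8 : (8 : ℝ) ≤ Real.exp 7 := by
        have := Real.add_one_le_exp (7 : ℝ)
        linarith
      calc (1 + k ^ 2) * Real.exp (h - k / 32) * 8
          ≤ Real.exp (2 * h + 1) * Real.exp (h - k / 32) * Real.exp 7 := by gcongr
        _ = Real.exp (2 * h + 1 + (h - k / 32) + 7) := by rw [← Real.exp_add, ← Real.exp_add]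
        _ ≤ _ := Real.exp_le_exp.mpr (by linarith)
    linarith
  have c4 : Real.exp (1 / 2 - k / 16 + 4 * (Real.log k + C + √k * Real.log k * (1 + C))) ≤
      Real.exp (-(1 / 64) * k) / 4 := by
    have : Real.exp (1 / 2 - k / 16 + 4 * (Real.log k + C + √k * Real.log k * (1 + C))) * 4 ≤
        Real.exp (-(1 / 64) * k) := by
      have e4 : (4 : ℝ) ≤ Real.exp 7 := by
        have := Real.add_one_le_exp (7 : ℝ)
        linarith
      have d1 : √k * Real.log k * (1 + C) ≤ h * (1 + C) :=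
        mul_le_mul_of_nonneg_right hlogh2 (by linarith)
      have d2 : 4 * (Real.log k + C + √k * Real.log k * (1 + C)) ≤ h * (8 + 4 * C) := by
        nlinarith
      calc Real.exp (1 / 2 - k / 16 + 4 * (Real.log k + C + √k * Real.log k * (1 + C))) * 4
          ≤ Real.exp (1 / 2 - k / 16 + 4 * (Real.log k + C + √k * Real.log k * (1 + C))) *
            Real.exp 7 := by gcongr
        _ = Real.exp (1 / 2 - k / 16 + 4 * (Real.log k + C + √k * Real.log k * (1 + C)) + 7) := by
            rw [← Real.exp_add]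
        _ ≤ _ := Real.exp_le_exp.mpr (by linarith)
    linarith
  linarith

/-- the limit is between `0` and `1` -/
theorem lim_mem {F : Set (Set ℕ)} (hF : ∀ D ∈ F, D.Nonempty) {c : ℝ}
    (hc : Tendsto (fun n : ℕ => (f F n : ℝ) / n) atTop (𝓝 c)) : 0 ≤ c ∧ c ≤ 1 := by
  constructor
  · exact ge_of_tendsto' hc fun n => by positivity
  · refine le_of_tendsto' hc fun n => ?_
    have : (f F n : ℝ) ≤ n := by exact_mod_cast f_le_self hF n
    exact div_le_one_of_le₀ this (by positivity)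

/-- the rate of convergence -/
theorem rate : ∃ C : ℝ, 0 < C ∧ ∀ (L : ℕ) (F : Set (Set ℕ)), Loc L F → ∀ c : ℝ,
    Tendsto (fun n : ℕ => (f F n : ℝ) / n) atTop (𝓝 c) → ∀ n : ℕ, 3 ≤ n →
    |(f F n : ℝ) - c * n| ≤
      C * (L + 1) * n * Real.exp (-(1 / 64) * √(Real.log n * Real.log (Real.log n))) := by
  obtain ⟨C, hC0, hC⟩ := mertens_exp
  obtain ⟨K0, hK0⟩ := eventually_atTop.mp (small hC0)
  obtain ⟨K, hK⟩ : ∃ K, K = max K0 2 := ⟨_, rfl⟩
  have hKK0 : K0 ≤ K := by rw [hK]; exact le_max_left _ _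
  have hK2 : 2 ≤ K := by rw [hK]; exact le_max_right _ _
  refine ⟨Real.exp K, Real.exp_pos _, fun L F hF c hc n hn => ?_⟩
  have hne : ∀ D ∈ F, D.Nonempty := fun D hD => (hF D hD).1
  obtain ⟨hc0, hc1⟩ := lim_mem hne hc
  have hn3 : (3 : ℝ) ≤ n := by exact_mod_cast hn
  have hn0 : (0 : ℝ) < n := by linarith
  obtain ⟨k, hk⟩ : ∃ k, k = √(Real.log n * Real.log (Real.log n)) := ⟨_, rfl⟩
  rw [← hk]
  have hk0 : 0 ≤ k := by rw [hk]; positivity
  have hL0 : (0 : ℝ) ≤ L := Nat.cast_nonneg _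
  -- the trivial bound
  have triv : |(f F n : ℝ) - c * n| ≤ n := by
    have h1 : (f F n : ℝ) ≤ n := by exact_mod_cast f_le_self hne n
    have h2 : (0 : ℝ) ≤ f F n := Nat.cast_nonneg _
    have h3 : c * n ≤ n := mul_le_of_le_one_left hn0.le hc1
    have h4 : 0 ≤ c * n := mul_nonneg hc0 hn0.le
    rw [abs_le]
    constructor <;> linarith
  have hE : 1 ≤ Real.exp K := Real.one_le_exp (by linarith)
  by_cases hkK : k < K
  · refine triv.trans ?_
    have h1 : 1 ≤ Real.exp K * (L + 1) * Real.exp (-(1 / 64) * k) := by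
      have h2 : 1 ≤ Real.exp K * Real.exp (-(1 / 64) * k) := by
        rw [← Real.exp_add]
        apply Real.one_le_exp
        linarith
      calc (1 : ℝ) ≤ Real.exp K * Real.exp (-(1 / 64) * k) := h2
        _ = Real.exp K * 1 * Real.exp (-(1 / 64) * k) := by ring
        _ ≤ _ := by
            gcongr
            linarith
    nlinarith
  push Not at hkK
  by_cases hkL : Real.exp k < L
  · refine triv.trans ?_
    have h1 : 1 ≤ Real.exp K * (L + 1) * Real.exp (-(1 / 64) * k) := by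
      have h2 : 1 ≤ (L : ℝ) * Real.exp (-(1 / 64) * k) := by
        calc (1 : ℝ) = Real.exp k * Real.exp (-k) := by rw [← Real.exp_add]; simp
          _ ≤ L * Real.exp (-(1 / 64) * k) := by
            apply mul_le_mul hkL.le _ (Real.exp_pos _).le hL0
            apply Real.exp_le_exp.mpr
            linarith
      have h3 : (L : ℝ) * Real.exp (-(1 / 64) * k) ≤ (L + 1) * Real.exp (-(1 / 64) * k) := by
        gcongr
        linarith
      have h4 : (L + 1) * Real.exp (-(1 / 64) * k) ≤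
          Real.exp K * ((L + 1) * Real.exp (-(1 / 64) * k)) :=
        le_mul_of_one_le_left (by positivity) hE
      linarith
    nlinarith
  push Not at hkL
  -- the main case
  have hlogn0 : 0 < Real.log n := Real.log_pos (by linarith)
  have hll : 1 ≤ Real.log (Real.log n) := by
    by_contra hlt
    push Not at hlt
    have h1 : Real.log n < Real.exp 1 := by
      rw [← Real.log_lt_iff_lt_exp hlogn0]
      exact hlt
    have h2 := Real.exp_one_lt_d9
    have h3 : k < 2 := by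
      rw [hk, Real.sqrt_lt' (by norm_num)]
      rcases le_or_gt (Real.log (Real.log n)) 0 with h4 | h4
      · have : Real.log n * Real.log (Real.log n) ≤ 0 := mul_nonpos_of_nonneg_of_nonpos hlogn0.le h4
        linarith
      · nlinarith
    linarith
  obtain ⟨-, p2, p3, p4, p5⟩ := params hll hlogn0
  rw [← hk] at p2 p3 p4 p5
  have hmain := err_bound hne hC0 hC (n := n) (L := Real.log n) (k := k)
    (u := Real.log n / k) (Real.exp_log hn0).symm (by linarith) p2 p3 p4 p5
  obtain ⟨N, hN⟩ : ∃ N, N = ⌊Real.exp k⌋₊ + 1 := ⟨_, rfl⟩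
  rw [← hN] at hmain
  have hNk : Real.exp k < N := by
    rw [hN]
    push_cast
    exact Nat.lt_floor_add_one _
  have hLN : L < N := by
    have : (L : ℝ) < N := by linarith
    exact_mod_cast this
  have hN0 : (0 : ℝ) < N := by
    have := Real.exp_pos k
    linarith
  have hNinv : (n : ℝ) / N ≤ n * Real.exp (-k) := by
    rw [Real.exp_neg, ← div_eq_mul_inv]
    exact div_le_div_of_nonneg_left hn0.le (Real.exp_pos _) hNk.le
  obtain ⟨c', hc', g1, g2⟩ := limit_exists hF
  have hcc : c' = c := tendsto_nhds_unique hc' hc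
  subst hcc
  have g1' := g1 N
  have g2' := g2 N hLN
  have f1 : (f F n : ℝ) ≤ ∑ v ∈ rgh N n, (g F N (n / v) : ℝ) := by
    exact_mod_cast f_le hne N n
  have f2 : ∑ v ∈ rgh N n, (g F N (n / v) : ℝ) ≤ f F n + n / N := by
    have h1 := sum_g_le hF hLN n
    have h2 : (∑ v ∈ rgh N n, (g F N (n / v) : ℝ)) ≤ f F n + ((n / N : ℕ) : ℝ) := by
      exact_mod_cast h1
    have h3 : ((n / N : ℕ) : ℝ) ≤ n / N := Nat.cast_div_le
    linarith
  have f3 : cc F N * n ≤ c' * n + n / N := by
    have h1 : cc F N * n ≤ (c' + 1 / N) * n := mul_le_mul_of_nonneg_right g2' hn0.le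
    have h2 : (c' + 1 / N) * n = c' * n + n / N := by ring
    linarith
  have f4 : c' * n ≤ cc F N * n := mul_le_mul_of_nonneg_right g1' hn0.le
  have hsm := hK0 k (by linarith)
  have hsm' := mul_le_mul_of_nonneg_left hsm hn0.le
  rw [abs_le] at hmain
  have hfin : |(f F n : ℝ) - c' * n| ≤ n * Real.exp (-(1 / 64) * k) := by
    rw [abs_le]
    constructor <;> nlinarith [hmain.1, hmain.2]
  refine hfin.trans ?_
  have hX : 0 ≤ n * Real.exp (-(1 / 64) * k) := by positivity
  have h1 : 1 ≤ Real.exp K * (L + 1) := by nlinarith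
  calc n * Real.exp (-(1 / 64) * k) ≤ (Real.exp K * (L + 1)) * (n * Real.exp (-(1 / 64) * k)) :=
        le_mul_of_one_le_left hX h1
    _ = _ := by ring

end Pool.Agent.KS6_20.DR
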